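import Pool.Agent.H14.ClusterMain
import Pool.Agent.H14.ClusterExample

/-!
# Cluster type varieties lift over `W₂(k)`

The definitions are in `Pool/Agent/H14/ClusterDefs.lean`. The second theorem below is a check of
these definitions: projective space with its toric boundary is a cluster type pair.
-/

set_option autoImplicit false

universe u

open CategoryTheory AlgebraicGeometry Pool.Agent.H14.Cluster

/-- Every cluster type variety over an algebraically closed field of characteristic `p > 0`
lifts over `W₂(k)`. -/
theorem Pool.Agent.Results.MP_326da7_ag.ClusterLift.result
    (p : ℕ) [Fact p.Prime] (k : Type u) [Field k] [IsAlgClosed k] [CharP k p]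
    (X : IntegralScheme k) (hX : IsClusterTypeVariety X) :
    LiftsOverW2 p X :=
  Pool.Agent.H14.liftsOverW2_of_isClusterTypeVariety p hX

/-- A check of the definitions, not part of the result: projective space with the sum of the
coordinate hyperplanes is a cluster type pair. -/
theorem Pool.Agent.Results.MP_326da7_ag.ClusterLift.check_definitions
    (k : Type u) [Field k] (n : ℕ) : IsClusterTypePair (projSpace k n) (toricBoundary n) :=
  Pool.Agent.H14.isClusterTypePair_projSpace
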